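import Mathlib.Algebra.Category.Grp.Basic
import Mathlib.CategoryTheory.Limits.Shapes.Pullback.IsPullback.Basic
import Mathlib.RepresentationTheory.Homological.GroupHomology.Basic

/-!
# Low K-groups of group rings: acyclic groups suffice

Let `W` be one of the functors `Wh`, `K̃_0(ℤ -)`, `K_n(ℤ -)` for `n ≤ -1` on the category of groups.

Data:
* `MayerVietoris W` (Waldhausen): `W Y → W X ⊕ W C → W Z` is exact for amalgamated products `Z` of
  torsion-free groups `X` and `C` along a common subgroup `Y`;
* `Resolutions W`: the metric Kan-Thurston theorem (Leary) and the Farrell-Jones conjecture in K-theory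
  for torsion-free CAT(0) groups (Bartels-Lück, Wegner) and their colimits: for every torsion-free group
  `G` there are torsion-free groups `Y` with `W Y = 0` and `C`, a homomorphism `p : Y → G` (a homology
  isomorphism) and an embedding `e : Y → C`, such that the amalgamated product of `G × C` and `C` along
  `Y` (embedded by `(p, e)` and by `e`) is torsion-free and acyclic.

Theorem. `W G = 0` for all torsion-free groups `G` if and only if `W Z = 0` for all acyclic
torsion-free groups `Z`.
-/

set_option autoImplicit false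

namespace Pool.Agent.Results.MP_16fe43_al.AcyclicGroupsSuffice

open CategoryTheory

/-- `1` is the only element of finite order. -/
def TorsionFree (G : GrpCat.{0}) : Prop := ∀ (g : G) (m : ℕ), 0 < m → g ^ m = 1 → g = 1

/-- All homology groups `H_m(G; ℤ)`, `m > 0`, vanish. -/
def Acyclic (G : GrpCat.{0}) : Prop :=
  ∀ m : ℕ, 0 < m → Subsingleton (groupHomology (Rep.trivial ℤ G ℤ) m)

/-- the group `G × C` -/
abbrev prod (G C : GrpCat.{0}) : GrpCat.{0} := GrpCat.of (G × C)

/-- the projection `G × C → G` -/
abbrev fst (G C : GrpCat.{0}) : prod G C ⟶ G := GrpCat.ofHom (MonoidHom.fst G C)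

/-- the inclusion `G → G × C` -/
abbrev inl (G C : GrpCat.{0}) : G ⟶ prod G C := GrpCat.ofHom (MonoidHom.inl G C)

/-- the homomorphism `y ↦ (p y, e y)` from `Y` to `G × C` -/
abbrev pair {Y G C : GrpCat.{0}} (p : Y ⟶ G) (e : Y ⟶ C) : Y ⟶ prod G C :=
  GrpCat.ofHom (p.hom.prod e.hom)

variable (W : GrpCat.{0} ⥤ AddCommGrpCat.{0})

/-- `W G = 0`. -/
def Vanishes (G : GrpCat.{0}) : Prop := ∀ w : W.obj G, w = 0

/-- For amalgamated products `Z` of torsion-free groups `X` and `C` along a common subgroup `Y`
(embedded by `f : Y → X` and `e : Y → C`) the sequence `W Y → W X ⊕ W C → W Z` is exact: if `x` in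
`W X` and `c` in `W C` have the same image in `W Z`, then they are the images of some `y` in `W Y`. -/
def MayerVietoris : Prop :=
  ∀ (Y X C Z : GrpCat.{0}) (f : Y ⟶ X) (e : Y ⟶ C) (j : X ⟶ Z) (k : C ⟶ Z),
    IsPushout f e j k → Function.Injective f.hom → Function.Injective e.hom →
    TorsionFree X → TorsionFree C → ∀ (x : W.obj X) (c : W.obj C),
      (W.map j).hom x = (W.map k).hom c →
        ∃ y : W.obj Y, (W.map f).hom y = x ∧ (W.map e).hom y = c

/-- For every torsion-free group `G` there are a group `Y` with `W Y = 0`, a torsion-free group `C`, a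
homomorphism `p : Y → G` and an injective homomorphism `e : Y → C`, such that the amalgamated product
`Z` of `G × C` and `C` along `Y` (embedded by `(p, e)` and `e`) is torsion-free and acyclic. -/
def Resolutions : Prop :=
  ∀ G : GrpCat.{0}, TorsionFree G → ∃ (Y C Z : GrpCat.{0}) (p : Y ⟶ G) (e : Y ⟶ C)
    (j : prod G C ⟶ Z) (k : C ⟶ Z), IsPushout (pair p e) e j k ∧ Function.Injective e.hom ∧
      Vanishes W Y ∧ TorsionFree C ∧ TorsionFree Z ∧ Acyclic Z

/-- `W G = 0` for all torsion-free groups `G` if and only if `W Z = 0` for all acyclic torsion-free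
groups `Z`. -/
theorem result (W : GrpCat.{0} ⥤ AddCommGrpCat.{0}) (hR : Resolutions W) (hM : MayerVietoris W) :
    (∀ G : GrpCat.{0}, TorsionFree G → Vanishes W G) ↔
      ∀ Z : GrpCat.{0}, TorsionFree Z → Acyclic Z → Vanishes W Z := by
  refine ⟨fun h Z hZ _ => h Z hZ, fun h G hG w => ?_⟩
  obtain ⟨Y, C, Z, p, e, j, k, hpo, he, hY, hC, hZ, hZa⟩ := hR G hG
  have hXt : TorsionFree (prod G C) := by
    rintro ⟨g, c⟩ m hm h
    have h1 : (g ^ m, c ^ m) = ((1 : G), (1 : C)) := h
    exact Prod.ext (hG g m hm (congrArg Prod.fst h1)) (hC c m hm (congrArg Prod.snd h1))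
  have hf : Function.Injective (pair p e).hom := by
    intro a b hab
    exact he (congrArg Prod.snd hab)
  have hZ0 := h Z hZ hZa
  obtain ⟨y, hy, -⟩ := hM Y (prod G C) C Z (pair p e) e j k hpo hf he hXt hC
    ((W.map (inl G C)).hom w) 0 (by rw [hZ0 ((W.map j).hom _), map_zero])
  rw [hY y, map_zero] at hy
  have h3 := congrArg (W.map (fst G C)).hom hy
  have hret : inl G C ≫ fst G C = 𝟙 G := by ext; rfl
  have h4 : (W.map (fst G C)).hom ((W.map (inl G C)).hom w) = (W.map (inl G C ≫ fst G C)).hom w := by
    rw [W.map_comp]; rfl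
  rw [map_zero, h4, hret, W.map_id] at h3
  exact h3.symm

end Pool.Agent.Results.MP_16fe43_al.AcyclicGroupsSuffice
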