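import Pool.Agent.TH57.TT2.Long4

set_option autoImplicit false

/-! Projective modules over the integral group ring of a torsion-free group which have a
presentation in which, in each component, all relations but one have at most two nonzero
coefficients, or all generators but one occur at most twice, are stably free. -/

namespace Pool.Agent.Results.MP_16fe43_al.OneLongRelation

open TH57.Thr TH57.TT2

/-- `P` is presented by the `m × n` matrix `A` over `ℤG`. The rows (relations) and the columns
(generators) are coloured so that a nonzero entry is in a row and a column of the same colour. Of any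
two different rows of the same colour one has at most two nonzero coefficients, or: of any two
different columns of the same colour one has at most two nonzero coefficients. -/
theorem result (G : Type) [Group G] (htf : ∀ g : G, IsOfFinOrder g → g = 1)
    (P : Type) [AddCommGroup P] [Module (MonoidAlgebra ℤ G) P]
    (hP : Module.Projective (MonoidAlgebra ℤ G) P)
    (m n : ℕ) (A : Matrix (Fin m) (Fin n) (MonoidAlgebra ℤ G))
    (e : P ≃ₗ[MonoidAlgebra ℤ G]
      ((Fin n → MonoidAlgebra ℤ G) ⧸ LinearMap.range A.vecMulLinear))
    (c : Fin m → ℕ) (d : Fin n → ℕ) (hcd : ∀ i j, A i j ≠ 0 → c i = d j)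
    (hA : (∀ i i', i ≠ i' → c i = c i' →
        ∑ j, (A i j).coeff.support.card ≤ 2 ∨ ∑ j, (A i' j).coeff.support.card ≤ 2) ∨
      (∀ j j', j ≠ j' → d j = d j' →
        ∑ i, (A i j).coeff.support.card ≤ 2 ∨ ∑ i, (A i j').coeff.support.card ≤ 2)) :
    ∃ k l : ℕ, Nonempty ((P × (Fin k → MonoidAlgebra ℤ G)) ≃ₗ[MonoidAlgebra ℤ G]
      (Fin l → MonoidAlgebra ℤ G)) := by
  obtain ⟨Y, hY⟩ := regular_of_projective A P hP e
  have htf' : ∀ g : G, ∀ k : ℕ, 0 < k → g ^ k = 1 → g = 1 := fun g k hk h =>
    htf g (isOfFinOrder_iff_pow_eq_one.2 ⟨k, hk, h⟩)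
  rcases hA with hA | hA
  · refine free_of_SFC A (SFC_long htf' A Y hY c d hcd fun i i' hii h1 h2 => ?_) P e
    by_contra hne
    rcases hA i i' hne hii with h | h
    · exact absurd h (not_le.2 h1)
    · exact absurd h (not_le.2 h2)
  · refine free_of_SFC A (SFC_long_col htf' A Y hY c d hcd fun i i' hii h1 h2 => ?_) P e
    by_contra hne
    rcases hA i i' hne hii with h | h
    · exact absurd h (not_le.2 h1)
    · exact absurd h (not_le.2 h2)

end Pool.Agent.Results.MP_16fe43_al.OneLongRelation
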