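import Pool.Agent.TH6.FB.Mod

set_option autoImplicit false

/-! Let `G` be a torsion-free group. A module over `ℤ[G × ℤ^r]` with a presentation which is
controlled over `G` by a matrix of `ℓ²`-operator norm less than `3 / √2` is a direct sum of modules
induced from subgroups of `G × ℤ^r` with cyclic image in `G`; these are free abelian. -/

namespace Pool.Agent.Results.MP_16fe43_al.ThinLaurentModules

open TH57.Thr TH6.PF TH6.FB

theorem result (G : Type) [Group G] (r : ℕ)
    (P : Type) [AddCommGroup P] [Module (MonoidAlgebra ℤ (GZ G r)) P]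
    (m n : ℕ) (M : Matrix (Fin m) (Fin n) (MonoidAlgebra ℤ (GZ G r)))
    (e : P ≃ₗ[MonoidAlgebra ℤ (GZ G r)] Coker M)
    (A : Matrix (Fin m) (Fin n) (MonoidAlgebra ℤ G))
    (c : ℝ) (hc0 : 0 < c) (hc : c ^ 2 < 9 / 2) (hA : NormLE A c)
    (hM : ∀ i j x, (M i j).coeff x ≠ 0 → (A i j).coeff x.1 ≠ 0) :
    FibSum ℤ (MonoidHom.fst G (Multiplicative (Fin r → ℤ))) P :=
  ctrl_modules _ Prod.fst_surjective P m n M e A c hc0 hc hA hM

end Pool.Agent.Results.MP_16fe43_al.ThinLaurentModules
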